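import Mathlib
import Pool.Agent.Lib.MP_ae5b4e_an_NBT.ConD
import Pool.Agent.Lib.MP_ae5b4e_an_NBT.SupD
import Pool.Agent.Lib.MP_ae5b4e_an_NBT.Disc
import Pool.Agent.Lib.MP_ae5b4e_an_NBT.Hgt
import Pool.Agent.Lib.MP_ae5b4e_an_LL.Half
import Pool.Agent.Lib.MP_ae5b4e_an_LL.Comp
import Pool.Agent.Lib.MP_ae5b4e_an_LL.Bridge

/-!
# MP_ae5b4e_an, NB_1 (1.1): real parameters with a height near the height at zero
-/

noncomputable section

namespace Pool.Agent.MP_ae5b4e_an_NB1P

open Complex Set Filter Topology Metric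
open Pool.Agent.MP_ae5b4e_an_NBT
open Pool.Agent.Lib.MP_ae5b4e_an_LL (SubH subH_neg_of_supH RHD isOpen_RHD)

/-- a superharmonic function which is at least `m` on a punctured real interval is at least `m` at
zero -/
theorem supH_real {u : ℂ → ℝ} {R r m : ℝ} (hr : 0 < r) (hrR : r ≤ R) (hu : SupH u (ball 0 R))
    (h0 : ∀ z ∈ ball (0:ℂ) R, 0 ≤ u z) (hm : 0 ≤ m) (hev : ∀ z, u (-z) = u z)
    (hreal : ∀ x : ℝ, 0 < x → x < r → m ≤ u x) : m ≤ u 0 := by
  by_contra hlt
  rw [not_le] at hlt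
  -- real points
  have hreal' : ∀ x : ℝ, x ≠ 0 → |x| < r → m ≤ u x := by
    intro x hx hxr
    rcases lt_or_gt_of_ne hx with h1 | h1
    · have h2 := hreal (-x) (by linarith) (by rwa [abs_of_neg h1] at hxr)
      rw [Complex.ofReal_neg, hev] at h2
      exact h2
    · exact hreal x h1 (by rwa [abs_of_pos h1] at hxr)
  have hmapsR : ∀ z : ℂ, ‖z‖ < r → I * z ∈ ball (0:ℂ) R := by
    intro z hz
    rw [mem_ball_zero_iff, norm_mul, norm_I, one_mul]
    linarith
  have hsub : SubH (fun z => -u z) (ball 0 R) := subH_neg_of_supH isOpen_ball hu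
  have hf : SubH (fun z => -u (I * z)) (RHD r) := by
    have := hsub.comp (V := RHD r) (φ := fun z => I * z) isOpen_ball (isOpen_RHD r)
      (fun z _ => (analyticAt_const.mul analyticAt_id)) (fun z hz => hmapsR z hz.2)
    exact this
  have key := hf.le_halfDisc hr (A := 0) (B := -m) (by linarith)
    (fun z hz => by
      have := h0 _ (hmapsR z hz.2)
      show -u (I * z) ≤ 0
      linarith) (E := {0}) (finite_singleton 0) (by
      intro ζ h1 h2 h3 ε hε
      have hζ : I * ζ = ((-ζ.im : ℝ) : ℂ) := by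
        apply Complex.ext
        · simp
        · simp [h1]
      have hne : -ζ.im ≠ 0 := by
        intro h4
        apply h3
        apply Complex.ext
        · simpa using h1
        · simpa using neg_eq_zero.1 h4
      have habs : |(-ζ.im)| < r := by
        rw [abs_neg]
        exact (Complex.abs_im_le_norm ζ).trans_lt h2
      have h5 := hreal' (-ζ.im) hne habs
      rw [← hζ] at h5
      have h6 := hu.lsc (I * ζ) (hmapsR ζ h2) (m - ε) (by linarith)
      have h7 : Tendsto (fun z : ℂ => I * z) (𝓝[RHD r] ζ) (𝓝 (I * ζ)) := by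
        have : Continuous fun z : ℂ => I * z := by fun_prop
        exact (this.tendsto ζ).mono_left nhdsWithin_le_nhds
      filter_upwards [h7.eventually h6] with z hz
      show -u (I * z) ≤ -m + ε
      linarith)
  -- upper half disc
  have hup : ∀ z : ℂ, 0 < z.re → ‖z‖ < r / 2 → m - 2 * m * ‖z‖ / r ≤ u (I * z) := by
    intro z hz hzr
    have h1 : z ∈ RHD r := ⟨hz, by linarith⟩
    have h2 := key z h1
    have h3 : z.re ≤ ‖z‖ := (le_abs_self _).trans (Complex.abs_re_le_norm z)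
    have h4 : 4 / Real.pi * (r * z.re / (r ^ 2 - ‖z‖ ^ 2)) ≤ 2 * ‖z‖ / r := by
      have hn : 0 ≤ ‖z‖ := norm_nonneg z
      have h5 : 0 < r ^ 2 - ‖z‖ ^ 2 := by nlinarith
      have h6 : 3 / 4 * r ^ 2 ≤ r ^ 2 - ‖z‖ ^ 2 := by nlinarith
      have h7 : r * z.re / (r ^ 2 - ‖z‖ ^ 2) ≤ r * ‖z‖ / (3 / 4 * r ^ 2) := by
        gcongr
      have h8 : r * ‖z‖ / (3 / 4 * r ^ 2) = 4 / 3 * (‖z‖ / r) := by
        field_simp
      have h9 : 4 / Real.pi ≤ 4 / 3 := by
        apply div_le_div_of_nonneg_left (by norm_num) (by norm_num) Real.pi_gt_three.le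
      have h10 : 0 ≤ ‖z‖ / r := by positivity
      have h11 : 0 ≤ r * z.re / (r ^ 2 - ‖z‖ ^ 2) := by positivity
      calc 4 / Real.pi * (r * z.re / (r ^ 2 - ‖z‖ ^ 2))
          ≤ 4 / 3 * (4 / 3 * (‖z‖ / r)) := by
            rw [← h8]
            exact mul_le_mul h9 h7 h11 (by norm_num)
        _ ≤ 2 * (‖z‖ / r) := by linarith
        _ = 2 * ‖z‖ / r := by ring
    have h5 : (0 - -m) * (4 / Real.pi * (r * z.re / (r ^ 2 - ‖z‖ ^ 2))) ≤ m * (2 * ‖z‖ / r) := by
      rw [zero_sub, neg_neg]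
      exact mul_le_mul_of_nonneg_left h4 hm
    have h6 : m * (2 * ‖z‖ / r) = 2 * m * ‖z‖ / r := by ring
    have h2' : -u (I * z) ≤ -m + (0 - -m) * (4 / Real.pi * (r * z.re / (r ^ 2 - ‖z‖ ^ 2))) := h2
    linarith
  -- all points of small circles
  have hall : ∀ w : ℂ, w ≠ 0 → ‖w‖ < r / 2 → m - 2 * m * ‖w‖ / r ≤ u w := by
    intro w hw hwr
    have hn : ‖-(I * w)‖ = ‖w‖ := by rw [norm_neg, norm_mul, norm_I, one_mul]
    have hn' : ‖I * w‖ = ‖w‖ := by rw [norm_mul, norm_I, one_mul]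
    have e1 : I * -(I * w) = w := by
      linear_combination (-w) * I_mul_I
    have e2 : I * (I * w) = -w := by
      linear_combination w * I_mul_I
    rcases lt_trichotomy w.im 0 with h1 | h1 | h1
    · have h2 := hup (I * w) (by simpa using h1) (by rwa [hn'])
      rw [hn', e2, hev] at h2
      exact h2
    · have h2 : w = (w.re : ℂ) := Complex.ext (by simp) (by simpa using h1)
      have h3 : w.re ≠ 0 := by
        intro h4
        apply hw
        rw [h2, h4, Complex.ofReal_zero]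
      have h4 : |w.re| < r := (Complex.abs_re_le_norm w).trans_lt (by linarith)
      have h5 := hreal' w.re h3 h4
      rw [← h2] at h5
      have h6 : 0 ≤ 2 * m * ‖w‖ / r := by positivity
      linarith
    · have h2 := hup (-(I * w)) (by simpa using h1) (by rwa [hn])
      rw [hn, e1] at h2
      exact h2
  -- the mean
  have hmean : ∀ s : ℝ, 0 < s → s < r / 2 → m - 2 * m * s / r ≤ u 0 := by
    intro s hs hsr
    have h1 := hu.mean 0 s hs ((closedBall_subset_ball (by linarith)))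
      (fun _ => m - 2 * m * s / r) continuous_const (by
        intro z hz
        rw [mem_sphere_zero_iff_norm] at hz
        have := hall z (by
          rintro rfl
          rw [norm_zero] at hz
          linarith) (by linarith)
        rw [hz] at this
        exact this)
    rwa [Real.circleAverage_const] at h1
  have hlim : Tendsto (fun s : ℝ => m - 2 * m * s / r) (𝓝[>] 0) (𝓝 (m - 2 * m * 0 / r)) := by
    have : Continuous fun s : ℝ => m - 2 * m * s / r := by fun_prop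
    exact (this.tendsto 0).mono_left nhdsWithin_le_nhds
  rw [mul_zero, zero_div, sub_zero] at hlim
  have h2 : m ≤ u 0 := by
    refine le_of_tendsto hlim ?_
    filter_upwards [self_mem_nhdsWithin,
      mem_nhdsWithin_of_mem_nhds (Iio_mem_nhds (show (0:ℝ) < r / 2 by linarith))] with s h3 h4
    exact hmean s h3 h4
  linarith

theorem extM_neg' {F : ℂ × ℂ → ℂ} {c y : ℝ} {ρ : ℂ}
    (heven : ∀ p ∈ St (-c) c ×ˢ ball (0:ℂ) (c / 4), F (p.1, -p.2) = F p)
    (h : ExtM F c (c / 4) y ρ) : ExtM F c (c / 4) y (-ρ) := by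
  obtain ⟨δ, hδ, hb, G, hG, hE⟩ := h
  have hneg : ∀ {x : ℂ}, x ∈ ball (-ρ) δ → -x ∈ ball ρ δ := by
    intro x hx
    rw [mem_ball, dist_eq_norm] at hx ⊢
    rw [← norm_neg]
    rwa [show -(-x - ρ) = x - -ρ by ring]
  have hb' : ball (-ρ) δ ⊆ ball (0:ℂ) (c / 4) := by
    intro x hx
    have := hb (hneg hx)
    rwa [mem_ball_zero_iff, norm_neg, ← mem_ball_zero_iff] at this
  let e : (ℂ × ℂ) ≃ₜ (ℂ × ℂ) := (Homeomorph.refl ℂ).prodCongr (Homeomorph.neg ℂ)
  have he : ∀ p : ℂ × ℂ, e p = (p.1, -p.2) := fun p => rfl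
  have hea : ∀ p : ℂ × ℂ, AnalyticAt ℂ e p := by
    intro p
    have h1 : AnalyticAt ℂ (fun p : ℂ × ℂ => (p.1, -p.2)) p :=
      analyticAt_fst.prod analyticAt_snd.neg
    exact h1
  refine ⟨δ, hδ, hb', fun p => G (p.1, -p.2), fun p hp => ?_, fun p hp => ?_⟩
  · exact MerAt.comp e (hea p) (hG (p.1, -p.2) ⟨hp.1, hneg hp.2⟩)
  · have h1 := EqM.comp e (hea p) (hE (p.1, -p.2) ⟨hp.1, hneg hp.2⟩)
    refine h1.trans (EqM.of_eventuallyEq ?_)
    have hp' : p ∈ St (-c) c ×ˢ ball (0:ℂ) (c / 4) :=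
      ⟨⟨hp.1.1, hp.1.2.trans_le (min_le_left _ _)⟩, hb' hp.2⟩
    have ho : IsOpen (St (-c) c ×ˢ ball (0:ℂ) (c / 4)) := (isOpen_St _ _).prod isOpen_ball
    filter_upwards [ho.mem_nhds hp'] with q hq
    exact heven q hq

theorem hgt_even {F : ℂ × ℂ → ℂ} {c Y : ℝ}
    (heven : ∀ p ∈ St (-c) c ×ˢ ball (0:ℂ) (c / 4), F (p.1, -p.2) = F p) (z : ℂ) :
    hgt F c (c / 4) Y (-z) = hgt F c (c / 4) Y z := by
  unfold hgt
  congr 1
  ext y
  constructor
  · rintro ⟨h1, h2⟩
    have := extM_neg' heven h2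
    rw [neg_neg] at this
    exact ⟨h1, this⟩
  · rintro ⟨h1, h2⟩
    exact ⟨h1, extM_neg' heven h2⟩

theorem hgt_zero {F : ℂ × ℂ → ℂ} {c h Y : ℝ} (hc : 0 < c) (hY : h ≤ Y)
    (h1 : ∀ y < h, ExtM F c (c / 4) y 0) (h2 : ¬ ∃ y > h, ExtM F c (c / 4) y 0) :
    hgt F c (c / 4) Y 0 = h := by
  apply le_antisymm
  · by_contra hlt
    rw [not_le] at hlt
    obtain ⟨y, hy1, hy2⟩ := exists_between hlt
    exact h2 ⟨y, hy1, extM_of_lt (mem_ball_self (by linarith)) hy2⟩
  · apply le_of_forall_lt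
    intro y hy
    obtain ⟨y', hy1, hy2⟩ := exists_between hy
    exact hy1.trans_le (le_hgt_of_extM (h1 y' hy2) (hy2.le.trans hY))

/-- **(1.1)** there are small real parameters with a height near the height at zero -/
theorem exists_rho {F : ℂ × ℂ → ℂ} {c h : ℝ} (hc : 0 < c) (hch : c < h)
    (hF : Mer F (St (-c) c ×ˢ ball 0 (c / 4)))
    (heven : ∀ p ∈ St (-c) c ×ˢ ball (0:ℂ) (c / 4), F (p.1, -p.2) = F p)
    (h1 : ∀ y < h, ExtM F c (c / 4) y 0) (h2 : ¬ ∃ y > h, ExtM F c (c / 4) y 0) {η : ℝ}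
    (hη : 0 < η) :
    ∃ ρ₀ : ℝ, 0 < ρ₀ ∧ ρ₀ < η ∧ |hgt F c (c / 4) (h + 1) ρ₀ - h| < η := by
  by_contra hcon
  push Not at hcon
  set u := hgt F c (c / 4) (h + 1) with hu
  have hu0 : u 0 = h := hgt_zero hc (by linarith) h1 h2
  have hsup : SupH u (ball 0 (c / 4)) := supH_hgt hc hF (by linarith)
  have hlow := hsup.lsc 0 (mem_ball_self (by linarith)) (h - η) (by
    show h - η < u 0
    rw [hu0]
    linarith)
  obtain ⟨r1, hr1, hr1'⟩ := Metric.eventually_nhds_iff_ball.1 hlow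
  set r := min r1 (min η (c / 8)) with hr
  have hr0 : 0 < r := lt_min hr1 (lt_min hη (by linarith))
  have hra : r ≤ r1 := min_le_left _ _
  have hrb : r ≤ η := (min_le_right _ _).trans (min_le_left _ _)
  have hrc : r ≤ c / 8 := (min_le_right _ _).trans (min_le_right _ _)
  have h3 := supH_real (m := h + η) hr0 (by linarith) hsup (fun z hz =>
    hc.le.trans (le_hgt hF (by linarith) hz)) (by linarith) (hgt_even heven)
    (fun x hx hxr => by
      have h4 := hcon x hx (by linarith)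
      have h5 := hr1' (x:ℂ) (by
        rw [mem_ball_zero_iff, norm_real, Real.norm_of_nonneg hx.le]
        linarith)
      rcases abs_cases (u x - h) with ⟨h6, h7⟩ | ⟨h6, h7⟩
      · linarith
      · linarith)
  linarith

end Pool.Agent.MP_ae5b4e_an_NB1P
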